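import Pool.Agent.N657.QL.Stm2

/-!
# QL/M0G (helper690 for helper657): number fluctuations in the neutral ground state
-/

set_option autoImplicit false

namespace Pool.Agent.N690.QLM

open Filter Topology
open Pool.Agent.N657.QR Pool.Agent.N657.QL

section General

variable {V : Type} [Fintype V] [DecidableEq V]

/-- the weighted number of particles -/
def G (g : V → ℝ) (n : V → ℤ) : ℝ := ∑ x, g x * (n x : ℝ)

lemma G_hp (g : V → ℝ) (x y : V) (n : V → ℤ) : G g (hp x y n) = G g n + (g x - g y) := by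
  unfold G hp dl
  have h1 : ∀ z, g z * (((n + Pi.single x 1 - Pi.single y 1 : V → ℤ) z : ℤ) : ℝ) =
      g z * (n z : ℝ) + (if z = x then g z else 0) - (if z = y then g z else 0) := by
    intro z
    rw [Pi.sub_apply, Pi.add_apply, Pi.single_apply, Pi.single_apply]
    split_ifs <;> push_cast <;> ring
  simp only [h1, Finset.sum_add_distrib, Finset.sum_sub_distrib, Finset.sum_ite_eq',
    Finset.mem_univ, if_true]
  ring

omit [DecidableEq V] in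
lemma G_neg (g : V → ℝ) (n : V → ℤ) : G g (-n) = -G g n := by
  unfold G
  rw [← Finset.sum_neg_distrib]
  refine Finset.sum_congr rfl fun x _ => ?_
  rw [Pi.neg_apply]
  push_cast
  ring

omit [DecidableEq V] in
lemma G_sq_le (g : V → ℝ) (n : V → ℤ) :
    G g n ^ 2 ≤ (∑ x, g x ^ 2) * Pool.Agent.N657.QR.sq n :=
  Finset.sum_mul_sq_le_sq_mul_sq Finset.univ g fun x => (n x : ℝ)

omit [DecidableEq V] in
lemma sq_nn (n : V → ℤ) : 0 ≤ Pool.Agent.N657.QR.sq n := Finset.sum_nonneg fun _ _ => sq_nonneg _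

/-- moving a particle is a bijection of the configurations -/
def hpE (x y : V) : (V → ℤ) ≃ (V → ℤ) where
  toFun := hp x y
  invFun := hp y x
  left_inv n := by unfold hp; abel
  right_inv n := by unfold hp; abel

variable {Ψ : (V → ℤ) → ℝ}

omit [DecidableEq V] in
lemma sumP (h0 : Summable fun n => Ψ n ^ 2)
    (h4 : Summable fun n => Pool.Agent.N657.QR.sq n ^ 2 * Ψ n ^ 2) (P : (V → ℤ) → ℝ) (C : ℝ)
    (hP : ∀ n, |P n| ≤ C * (1 + Pool.Agent.N657.QR.sq n ^ 2)) :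
    Summable fun n => P n * Ψ n ^ 2 := by
  refine Summable.of_norm_bounded (g := fun n =>
    C * (Ψ n ^ 2 + Pool.Agent.N657.QR.sq n ^ 2 * Ψ n ^ 2)) ((h0.add h4).mul_left C) fun n => ?_
  rw [Real.norm_eq_abs, abs_mul, abs_of_nonneg (sq_nonneg (Ψ n))]
  refine (mul_le_mul_of_nonneg_right (hP n) (sq_nonneg (Ψ n))).trans (le_of_eq ?_)
  ring

omit [Fintype V] in
lemma sum_hp (h0 : Summable fun n => Ψ n ^ 2) (x y : V) :
    Summable fun n => Ψ (hp x y n) ^ 2 :=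
  (hpE x y).summable_iff (f := fun n => Ψ n ^ 2) |>.2 h0

lemma sumX (h0 : Summable fun n => Ψ n ^ 2)
    (h4 : Summable fun n => Pool.Agent.N657.QR.sq n ^ 2 * Ψ n ^ 2) (P : (V → ℤ) → ℝ) (C : ℝ)
    (hP : ∀ n, P n ^ 2 ≤ C * (1 + Pool.Agent.N657.QR.sq n ^ 2)) (x y : V) :
    Summable fun n => P n * (Ψ (hp x y n) * Ψ n) := by
  have h1 : Summable fun n => P n ^ 2 * Ψ n ^ 2 := sumP h0 h4 (fun n => P n ^ 2) C fun n => by
    rw [abs_of_nonneg (sq_nonneg _)]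
    exact hP n
  refine Summable.of_norm_bounded ((h1.add (sum_hp h0 x y)).div_const 2) fun n => ?_
  rw [Real.norm_eq_abs, abs_le]
  constructor
  · nlinarith [sq_nonneg (P n * Ψ n + Ψ (hp x y n))]
  · nlinarith [sq_nonneg (P n * Ψ n - Ψ (hp x y n))]

lemma pot_eq (U : ℝ) (ν : V → ℝ) (n : V → ℤ) :
    pot (U • (1 : Matrix V V ℝ)) ν n = U * ∑ x, ((n x : ℝ) - ν x) ^ 2 := by
  unfold pot
  rw [Finset.mul_sum]
  refine Finset.sum_congr rfl fun x _ => ?_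
  rw [Finset.sum_eq_single x]
  · rw [Matrix.smul_apply, Matrix.one_apply_eq, smul_eq_mul]
    ring
  · intro y _ hy
    rw [Matrix.smul_apply, Matrix.one_apply_ne (Ne.symm hy), smul_zero, zero_mul]
  · intro h
    exact absurd (Finset.mem_univ x) h

lemma pot_zero (U : ℝ) (n : V → ℤ) :
    pot (U • (1 : Matrix V V ℝ)) 0 n = U * Pool.Agent.N657.QR.sq n := by
  rw [pot_eq]
  unfold Pool.Agent.N657.QR.sq
  simp

lemma pot_tg (U t : ℝ) (g : V → ℝ) (n : V → ℤ) :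
    pot (U • (1 : Matrix V V ℝ)) (fun x => t * g x) n =
      pot (U • (1 : Matrix V V ℝ)) 0 n - 2 * U * t * G g n + U * t ^ 2 * ∑ x, g x ^ 2 := by
  rw [pot_eq, pot_zero]
  unfold G Pool.Agent.N657.QR.sq
  have h : ∀ x, ((n x : ℝ) - t * g x) ^ 2 =
      (n x : ℝ) ^ 2 - 2 * t * (g x * (n x : ℝ)) + t ^ 2 * g x ^ 2 := fun x => by ring
  simp only [h, Finset.sum_add_distrib, Finset.sum_sub_distrib, ← Finset.mul_sum]
  ring

omit [DecidableEq V] in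
/-- bounds for `(1 + κ G)²` -/
lemma F_bd (g : V → ℝ) (κ : ℝ) : ∃ C : ℝ, 0 ≤ C ∧ (∀ n : V → ℤ,
    (1 + κ * G g n) ^ 2 ≤ C * (1 + Pool.Agent.N657.QR.sq n)) ∧ ∀ n : V → ℤ,
    ((1 + κ * G g n) ^ 2) ^ 2 ≤ C * (1 + Pool.Agent.N657.QR.sq n ^ 2) := by
  set c : ℝ := κ ^ 2 * ∑ x, g x ^ 2 with hc
  have hs : 0 ≤ ∑ x, g x ^ 2 := Finset.sum_nonneg fun _ _ => sq_nonneg _
  have hc0 : 0 ≤ c := by positivity
  have h1 : ∀ n : V → ℤ, (1 + κ * G g n) ^ 2 ≤ 2 * (1 + c * Pool.Agent.N657.QR.sq n) := by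
    intro n
    have h2 := mul_le_mul_of_nonneg_left (G_sq_le g n) (sq_nonneg κ)
    nlinarith [sq_nonneg (1 - κ * G g n)]
  refine ⟨8 * (1 + c) ^ 2, by positivity, fun n => ?_, fun n => ?_⟩
  · have hq := sq_nn n
    refine (h1 n).trans ?_
    nlinarith [mul_nonneg hc0 hq, mul_nonneg (mul_nonneg hc0 hc0) hq, mul_nonneg hc0 hc0]
  · have hq := sq_nn n
    have h3 : 0 ≤ (1 + κ * G g n) ^ 2 := sq_nonneg _
    have h4 : ((1 + κ * G g n) ^ 2) ^ 2 ≤ (2 * (1 + c * Pool.Agent.N657.QR.sq n)) ^ 2 :=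
      pow_le_pow_left₀ h3 (h1 n) 2
    refine h4.trans ?_
    have h5 : 0 ≤ c * Pool.Agent.N657.QR.sq n := mul_nonneg hc0 hq
    have h6 : (2 * (1 + c * Pool.Agent.N657.QR.sq n)) ^ 2 ≤
        8 * (1 + c ^ 2 * Pool.Agent.N657.QR.sq n ^ 2) := by
      nlinarith [sq_nonneg (1 - c * Pool.Agent.N657.QR.sq n)]
    have h7 : 0 ≤ Pool.Agent.N657.QR.sq n ^ 2 := sq_nonneg _
    refine h6.trans ?_
    nlinarith [mul_nonneg hc0 h7, mul_nonneg (mul_nonneg hc0 hc0) h7]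


/-- what is used of the ground state -/
structure Gs (U : ℝ) (w : V → V → ℝ) (E : ℝ) (Ψ : (V → ℤ) → ℝ) : Prop where
  h0 : Summable fun n => Ψ n ^ 2
  h4 : Summable fun n => Pool.Agent.N657.QR.sq n ^ 2 * Ψ n ^ 2
  eig : ∀ n, (pot (U • (1 : Matrix V V ℝ)) 0 n - E) * Ψ n =
    (∑ x, ∑ y, w x y * (Ψ (hp x y n) + Ψ (hp y x n))) / 2

/-- the trial function -/
def tr (g : V → ℝ) (κ : ℝ) (Ψ : (V → ℤ) → ℝ) (n : V → ℤ) : ℝ := (1 + κ * G g n) * Ψ n

lemma cr_tr (h0 : Summable fun n => Ψ n ^ 2)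
    (h4 : Summable fun n => Pool.Agent.N657.QR.sq n ^ 2 * Ψ n ^ 2) (g : V → ℝ) (κ : ℝ) (x y : V) :
    cr x y (tr g κ Ψ) = ((∑' n, (1 + κ * G g n) ^ 2 * (Ψ (hp x y n) * Ψ n)) +
      (∑' n, (1 + κ * G g n) ^ 2 * (Ψ (hp y x n) * Ψ n))) / 2 -
      κ ^ 2 * (g x - g y) ^ 2 / 2 * cr x y Ψ := by
  obtain ⟨C, hC0, hC1, hC2⟩ := F_bd (V := V) g κ
  have S1 : Summable fun n => (1 + κ * G g n) ^ 2 * (Ψ (hp x y n) * Ψ n) :=
    sumX h0 h4 (fun n => (1 + κ * G g n) ^ 2) C hC2 x y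
  have S2' : Summable fun n => (1 + κ * G g n) ^ 2 * (Ψ (hp y x n) * Ψ n) :=
    sumX h0 h4 (fun n => (1 + κ * G g n) ^ 2) C hC2 y x
  have S0 : Summable fun n => Ψ (hp x y n) * Ψ n := by
    have := sumX h0 h4 (fun _ => 1) 1 (fun n => by nlinarith [sq_nonneg (Pool.Agent.N657.QR.sq n)])
      x y
    simpa using this
  have e1 : ∀ m, (1 + κ * G g (hpE x y m)) ^ 2 * (Ψ (hp y x (hpE x y m)) * Ψ (hpE x y m)) =
      (1 + κ * G g m + κ * (g x - g y)) ^ 2 * (Ψ (hp x y m) * Ψ m) := by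
    intro m
    have e2 : hp y x (hpE x y m) = m := (hpE x y).left_inv m
    have e3 : (hpE x y m) = hp x y m := rfl
    rw [e2, e3, G_hp]
    ring
  have S2 : Summable fun n =>
      (1 + κ * G g n + κ * (g x - g y)) ^ 2 * (Ψ (hp x y n) * Ψ n) := by
    have := (hpE x y).summable_iff.2 S2'
    refine this.congr fun m => ?_
    exact e1 m
  have T2 : ∑' n, (1 + κ * G g n) ^ 2 * (Ψ (hp y x n) * Ψ n) =
      ∑' n, (1 + κ * G g n + κ * (g x - g y)) ^ 2 * (Ψ (hp x y n) * Ψ n) := by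
    rw [← (hpE x y).tsum_eq]
    exact tsum_congr e1
  have hs : HasSum (fun n => ((1 + κ * G g n) ^ 2 * (Ψ (hp x y n) * Ψ n) +
      (1 + κ * G g n + κ * (g x - g y)) ^ 2 * (Ψ (hp x y n) * Ψ n)) / 2 -
      κ ^ 2 * (g x - g y) ^ 2 / 2 * (Ψ (hp x y n) * Ψ n))
      (((∑' n, (1 + κ * G g n) ^ 2 * (Ψ (hp x y n) * Ψ n)) +
      (∑' n, (1 + κ * G g n + κ * (g x - g y)) ^ 2 * (Ψ (hp x y n) * Ψ n))) / 2 -
      κ ^ 2 * (g x - g y) ^ 2 / 2 * cr x y Ψ) :=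
    ((S1.hasSum.add S2.hasSum).div_const 2).sub (S0.hasSum.mul_left _)
  rw [T2, ← hs.tsum_eq]
  unfold cr tr
  refine tsum_congr fun n => ?_
  rw [G_hp]
  ring

lemma energy {U : ℝ} {w : V → V → ℝ} {E : ℝ} (hU : 0 < U) (hG : Gs U w E Ψ) (g : V → ℝ)
    (κ : ℝ) : FF (U • (1 : Matrix V V ℝ)) w 0 (tr g κ Ψ) - E * nr (tr g κ Ψ) =
      κ ^ 2 * ((∑ x, ∑ y, w x y * ((g x - g y) ^ 2 * cr x y Ψ)) / 2) := by
  obtain ⟨C, hC0, hC1, hC2⟩ := F_bd (V := V) g κ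
  have h0 := hG.h0
  have h4 := hG.h4
  have S1 : ∀ x y, Summable fun n => (1 + κ * G g n) ^ 2 * (Ψ (hp x y n) * Ψ n) := fun x y =>
    sumX h0 h4 (fun n => (1 + κ * G g n) ^ 2) C hC2 x y
  have Spo : Summable fun n => pot (U • (1 : Matrix V V ℝ)) 0 n * (tr g κ Ψ n) ^ 2 := by
    have := sumP h0 h4 (fun n => pot (U • (1 : Matrix V V ℝ)) 0 n * (1 + κ * G g n) ^ 2)
      (2 * U * C) (fun n => by
        have hq := sq_nn n
        rw [pot_zero, abs_of_nonneg (by positivity)]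
        have h5 := mul_le_mul_of_nonneg_left (hC1 n) (mul_nonneg hU.le hq)
        refine h5.trans ?_
        have h6 : Pool.Agent.N657.QR.sq n * (1 + Pool.Agent.N657.QR.sq n) ≤
            2 * (1 + Pool.Agent.N657.QR.sq n ^ 2) := by
          nlinarith [sq_nonneg (Pool.Agent.N657.QR.sq n - 1)]
        have h7 := mul_le_mul_of_nonneg_left h6 (mul_nonneg hU.le hC0)
        nlinarith)
    refine this.congr fun n => ?_
    unfold tr
    ring
  have Snr : Summable fun n => E * (tr g κ Ψ n) ^ 2 := by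
    have := sumP h0 h4 (fun n => E * (1 + κ * G g n) ^ 2)
      (2 * |E| * C) (fun n => by
        have hq := sq_nn n
        rw [abs_mul, abs_of_nonneg (sq_nonneg (1 + κ * G g n))]
        have h5 := mul_le_mul_of_nonneg_left (hC1 n) (abs_nonneg E)
        refine h5.trans ?_
        have h6 : 1 + Pool.Agent.N657.QR.sq n ≤
            2 * (1 + Pool.Agent.N657.QR.sq n ^ 2) := by
          nlinarith [sq_nonneg (Pool.Agent.N657.QR.sq n - 1)]
        have h7 := mul_le_mul_of_nonneg_left h6 (mul_nonneg (abs_nonneg E) hC0)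
        nlinarith)
    refine this.congr fun n => ?_
    unfold tr
    ring
  have hpo : po (U • (1 : Matrix V V ℝ)) 0 (tr g κ Ψ) - E * nr (tr g κ Ψ) =
      ∑ x, ∑ y, w x y * (((∑' n, (1 + κ * G g n) ^ 2 * (Ψ (hp x y n) * Ψ n)) +
      (∑' n, (1 + κ * G g n) ^ 2 * (Ψ (hp y x n) * Ψ n))) / 2) := by
    unfold po nr
    rw [← tsum_mul_left, ← Spo.tsum_sub Snr]
    have e1 : ∀ n, pot (U • (1 : Matrix V V ℝ)) 0 n * tr g κ Ψ n ^ 2 - E * tr g κ Ψ n ^ 2 =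
        ∑ x, ∑ y, w x y * (((1 + κ * G g n) ^ 2 * (Ψ (hp x y n) * Ψ n) +
          (1 + κ * G g n) ^ 2 * (Ψ (hp y x n) * Ψ n)) / 2) := by
      intro n
      have e2 : pot (U • (1 : Matrix V V ℝ)) 0 n * tr g κ Ψ n ^ 2 - E * tr g κ Ψ n ^ 2 =
          (1 + κ * G g n) ^ 2 * Ψ n * ((pot (U • (1 : Matrix V V ℝ)) 0 n - E) * Ψ n) := by
        unfold tr
        ring
      rw [e2, hG.eig n, mul_div_assoc', Finset.mul_sum, Finset.sum_div]
      refine Finset.sum_congr rfl fun x _ => ?_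
      rw [Finset.mul_sum, Finset.sum_div]
      refine Finset.sum_congr rfl fun y _ => ?_
      ring
    have hs : HasSum (fun n => ∑ x, ∑ y, w x y * (((1 + κ * G g n) ^ 2 * (Ψ (hp x y n) * Ψ n) +
          (1 + κ * G g n) ^ 2 * (Ψ (hp y x n) * Ψ n)) / 2))
        (∑ x, ∑ y, w x y * (((∑' n, (1 + κ * G g n) ^ 2 * (Ψ (hp x y n) * Ψ n)) +
      (∑' n, (1 + κ * G g n) ^ 2 * (Ψ (hp y x n) * Ψ n))) / 2)) :=
      hasSum_sum fun x _ => hasSum_sum fun y _ =>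
        (((S1 x y).hasSum.add (S1 y x).hasSum).div_const 2).mul_left _
    rw [← hs.tsum_eq]
    exact tsum_congr e1
  unfold FF
  have e3 : po (U • (1 : Matrix V V ℝ)) 0 (tr g κ Ψ) - (∑ x, ∑ y, w x y * cr x y (tr g κ Ψ)) -
      E * nr (tr g κ Ψ) = (po (U • (1 : Matrix V V ℝ)) 0 (tr g κ Ψ) - E * nr (tr g κ Ψ)) -
      (∑ x, ∑ y, w x y * cr x y (tr g κ Ψ)) := by ring
  rw [e3, hpo, ← Finset.sum_sub_distrib, mul_div_assoc', Finset.mul_sum, Finset.sum_div]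
  refine Finset.sum_congr rfl fun x _ => ?_
  rw [← Finset.sum_sub_distrib, Finset.mul_sum, Finset.sum_div]
  refine Finset.sum_congr rfl fun y _ => ?_
  rw [cr_tr h0 h4]
  ring

omit [DecidableEq V] in
/-- moments -/
lemma sumG (h0 : Summable fun n => Ψ n ^ 2)
    (h4 : Summable fun n => Pool.Agent.N657.QR.sq n ^ 2 * Ψ n ^ 2) (g : V → ℝ) (k : ℕ)
    (hk : k ≤ 4) : Summable fun n => G g n ^ k * Ψ n ^ 2 := by
  have hs : 0 ≤ ∑ x, g x ^ 2 := Finset.sum_nonneg fun _ _ => sq_nonneg _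
  refine sumP h0 h4 (fun n => G g n ^ k) (1 + (∑ x, g x ^ 2) ^ 2) fun n => ?_
  rw [abs_pow]
  have h1 : |G g n| ^ k ≤ 1 + |G g n| ^ 4 := by
    rcases le_total |G g n| 1 with h | h
    · have := pow_le_one₀ (n := k) (abs_nonneg (G g n)) h
      have := pow_nonneg (abs_nonneg (G g n)) 4
      linarith
    · have := pow_le_pow_right₀ h hk
      linarith
  have h2 : |G g n| ^ 4 = (G g n ^ 2) ^ 2 := by
    rw [← sq_abs (G g n)]
    ring
  have h3 : (G g n ^ 2) ^ 2 ≤ ((∑ x, g x ^ 2) * Pool.Agent.N657.QR.sq n) ^ 2 :=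
    pow_le_pow_left₀ (sq_nonneg _) (G_sq_le g n) 2
  rw [h2] at h1
  have h5 : 0 ≤ Pool.Agent.N657.QR.sq n ^ 2 := sq_nonneg _
  have h6 : 0 ≤ (∑ x, g x ^ 2) ^ 2 := sq_nonneg _
  nlinarith

omit [Fintype V] [DecidableEq V] in
/-- odd functions have mean zero -/
lemma tsum_odd (f : (V → ℤ) → ℝ) (h : ∀ n, f (-n) = -f n) : ∑' n, f n = 0 := by
  have h1 : ∑' n, f (-n) = ∑' n, f n := (Equiv.neg (V → ℤ)).tsum_eq f
  have h2 : ∑' n, f (-n) = -∑' n, f n := by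
    rw [← tsum_neg]
    exact tsum_congr h
  linarith

omit [DecidableEq V] in
lemma nr_tr (h0 : Summable fun n => Ψ n ^ 2)
    (h4 : Summable fun n => Pool.Agent.N657.QR.sq n ^ 2 * Ψ n ^ 2)
    (hsym : ∀ n, Ψ (-n) ^ 2 = Ψ n ^ 2) (g : V → ℝ) (κ : ℝ) :
    nr (tr g κ Ψ) = nr Ψ + κ ^ 2 * ∑' n, G g n ^ 2 * Ψ n ^ 2 := by
  have hz : ∑' n, G g n ^ 1 * Ψ n ^ 2 = 0 := tsum_odd _ fun n => by
    rw [G_neg, hsym]
    ring
  have hs : HasSum (fun n => G g n ^ 0 * Ψ n ^ 2 + 2 * κ * (G g n ^ 1 * Ψ n ^ 2) +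
      κ ^ 2 * (G g n ^ 2 * Ψ n ^ 2)) ((∑' n, G g n ^ 0 * Ψ n ^ 2) +
      2 * κ * (∑' n, G g n ^ 1 * Ψ n ^ 2) + κ ^ 2 * ∑' n, G g n ^ 2 * Ψ n ^ 2) :=
    ((sumG h0 h4 g 0 (by norm_num)).hasSum.add
      ((sumG h0 h4 g 1 (by norm_num)).hasSum.mul_left _)).add
      ((sumG h0 h4 g 2 (by norm_num)).hasSum.mul_left _)
  rw [hz, mul_zero, add_zero] at hs
  have e1 : ∑' n, G g n ^ 0 * Ψ n ^ 2 = nr Ψ := by
    unfold nr
    exact tsum_congr fun n => by ring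
  rw [e1] at hs
  rw [← hs.tsum_eq]
  unfold nr tr
  exact tsum_congr fun n => by ring

omit [DecidableEq V] in
lemma G_tr (h0 : Summable fun n => Ψ n ^ 2)
    (h4 : Summable fun n => Pool.Agent.N657.QR.sq n ^ 2 * Ψ n ^ 2)
    (hsym : ∀ n, Ψ (-n) ^ 2 = Ψ n ^ 2) (g : V → ℝ) (κ : ℝ) :
    HasSum (fun n => G g n * tr g κ Ψ n ^ 2) (2 * κ * ∑' n, G g n ^ 2 * Ψ n ^ 2) := by
  have hz : ∑' n, G g n ^ 1 * Ψ n ^ 2 = 0 := tsum_odd _ fun n => by
    rw [G_neg, hsym]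
    ring
  have hz3 : ∑' n, G g n ^ 3 * Ψ n ^ 2 = 0 := tsum_odd _ fun n => by
    rw [G_neg, hsym]
    ring
  have hs : HasSum (fun n => G g n ^ 1 * Ψ n ^ 2 + 2 * κ * (G g n ^ 2 * Ψ n ^ 2) +
      κ ^ 2 * (G g n ^ 3 * Ψ n ^ 2)) ((∑' n, G g n ^ 1 * Ψ n ^ 2) +
      2 * κ * (∑' n, G g n ^ 2 * Ψ n ^ 2) + κ ^ 2 * ∑' n, G g n ^ 3 * Ψ n ^ 2) :=
    ((sumG h0 h4 g 1 (by norm_num)).hasSum.add
      ((sumG h0 h4 g 2 (by norm_num)).hasSum.mul_left _)).add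
      ((sumG h0 h4 g 3 (by norm_num)).hasSum.mul_left _)
  rw [hz, hz3, mul_zero, add_zero, zero_add] at hs
  refine hs.congr_fun ?_
  intro n
  unfold tr
  ring

omit [DecidableEq V] in
lemma FE_tr (h0 : Summable fun n => Ψ n ^ 2)
    (h4 : Summable fun n => Pool.Agent.N657.QR.sq n ^ 2 * Ψ n ^ 2) (g : V → ℝ) (κ : ℝ) :
    FE (tr g κ Ψ) := by
  obtain ⟨C, hC0, hC1, hC2⟩ := F_bd (V := V) g κ
  constructor
  · have := sumP h0 h4 (fun n => (1 + κ * G g n) ^ 2) (2 * C) (fun n => by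
      have hq := sq_nn n
      rw [abs_of_nonneg (sq_nonneg (1 + κ * G g n))]
      refine (hC1 n).trans ?_
      have h6 : 1 + Pool.Agent.N657.QR.sq n ≤
          2 * (1 + Pool.Agent.N657.QR.sq n ^ 2) := by
        nlinarith [sq_nonneg (Pool.Agent.N657.QR.sq n - 1)]
      have h7 := mul_le_mul_of_nonneg_left h6 hC0
      nlinarith)
    refine this.congr fun n => ?_
    unfold tr
    ring
  · have := sumP h0 h4 (fun n => Pool.Agent.N657.QR.sq n * (1 + κ * G g n) ^ 2) (2 * C)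
      (fun n => by
        have hq := sq_nn n
        rw [abs_of_nonneg (by positivity)]
        have h5 := mul_le_mul_of_nonneg_left (hC1 n) hq
        refine h5.trans ?_
        have h6 : Pool.Agent.N657.QR.sq n * (1 + Pool.Agent.N657.QR.sq n) ≤
            2 * (1 + Pool.Agent.N657.QR.sq n ^ 2) := by
          nlinarith [sq_nonneg (Pool.Agent.N657.QR.sq n - 1)]
        have h7 := mul_le_mul_of_nonneg_left h6 hC0
        nlinarith)
    refine this.congr fun n => ?_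
    unfold tr
    ring

/-- the inequality for the trial functions -/
lemma quad [Nonempty V] (hLB : S_LB) (hM : S_MIN) {U : ℝ} {w : V → V → ℝ} (hU : 0 < U)
    (hw : ∀ x y, 0 ≤ w x y)
    (hG : Gs U w (en (U • (1 : Matrix V V ℝ)) w 0 0) Ψ) (hsec : Sec 0 Ψ) (hnr : nr Ψ = 1)
    (hsym : ∀ n, Ψ (-n) ^ 2 = Ψ n ^ 2) (g : V → ℝ) (κ t : ℝ) :
    0 ≤ κ ^ 2 * ((∑ x, ∑ y, w x y * ((g x - g y) ^ 2 * cr x y Ψ)) / 2) -
      4 * U * t * κ * (∑' n, G g n ^ 2 * Ψ n ^ 2) +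
      U * t ^ 2 * (∑ x, g x ^ 2) * (1 + κ ^ 2 * ∑' n, G g n ^ 2 * Ψ n ^ 2) := by
  have h0 := hG.h0
  have h4 := hG.h4
  have hps : (U • (1 : Matrix V V ℝ)).PosSemidef := Matrix.PosSemidef.one.smul hU.le
  have hfe := FE_tr h0 h4 g κ
  have hsec' : Sec 0 (tr g κ Ψ) := by
    intro n hn
    apply hsec
    intro h
    apply hn
    unfold tr
    rw [h, mul_zero]
  have hmin := hM (U • (1 : Matrix V V ℝ)) w (fun x => t * g x) 0 hps hw
  have hlb := hLB (U • (1 : Matrix V V ℝ)) w (fun x => t * g x) 0 (tr g κ Ψ) hps hw hfe hsec'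
  have hn0 : 0 ≤ nr (tr g κ Ψ) := tsum_nonneg fun n => sq_nonneg _
  have hen := energy hU hG g κ
  have Spo : Summable fun n => pot (U • (1 : Matrix V V ℝ)) 0 n * (tr g κ Ψ n) ^ 2 := by
    have := hfe.2.mul_left U
    refine this.congr fun n => ?_
    rw [pot_zero]
    ring
  have hG1 := G_tr h0 h4 hsym g κ
  have hpo : po (U • (1 : Matrix V V ℝ)) (fun x => t * g x) (tr g κ Ψ) =
      po (U • (1 : Matrix V V ℝ)) 0 (tr g κ Ψ) -
        2 * U * t * (2 * κ * ∑' n, G g n ^ 2 * Ψ n ^ 2) +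
        U * t ^ 2 * (∑ x, g x ^ 2) * nr (tr g κ Ψ) := by
    have hs : HasSum (fun n => pot (U • (1 : Matrix V V ℝ)) 0 n * (tr g κ Ψ n) ^ 2 -
        2 * U * t * (G g n * tr g κ Ψ n ^ 2) + U * t ^ 2 * (∑ x, g x ^ 2) * tr g κ Ψ n ^ 2)
        (po (U • (1 : Matrix V V ℝ)) 0 (tr g κ Ψ) -
        2 * U * t * (2 * κ * ∑' n, G g n ^ 2 * Ψ n ^ 2) +
        U * t ^ 2 * (∑ x, g x ^ 2) * nr (tr g κ Ψ)) :=
      (Spo.hasSum.sub (hG1.mul_left _)).add (hfe.1.hasSum.mul_left _)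
    rw [← hs.tsum_eq]
    unfold po
    refine tsum_congr fun n => ?_
    rw [pot_tg]
    ring
  have hnr2 := nr_tr h0 h4 hsym g κ
  rw [hnr] at hnr2
  have h5 : FF (U • (1 : Matrix V V ℝ)) w (fun x => t * g x) (tr g κ Ψ) =
      FF (U • (1 : Matrix V V ℝ)) w 0 (tr g κ Ψ) -
        2 * U * t * (2 * κ * ∑' n, G g n ^ 2 * Ψ n ^ 2) +
        U * t ^ 2 * (∑ x, g x ^ 2) * nr (tr g κ Ψ) := by
    unfold FF
    rw [hpo]
    ring
  rw [h5] at hlb
  have h6 := mul_le_mul_of_nonneg_right hmin hn0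
  rw [hnr2] at h6 hlb hen
  nlinarith

end General

/-- the limit and the discriminant -/
lemma fin (m0 m1 σ U c : ℝ) (hU : 0 < U) (hm0 : 0 ≤ m0) (h1 : m1 ≤ c * σ / 2) (hσ : 0 ≤ σ)
    (hc : 0 < c)
    (h : ∀ κ t : ℝ, 0 ≤ κ ^ 2 * m1 - 4 * U * t * κ * m0 + U * t ^ 2 * σ * (1 + κ ^ 2 * m0)) :
    m0 ≤ σ * Real.sqrt (c / (8 * U)) := by
  have key : ∀ s : ℝ, 0 ≤ s ^ 2 * m1 - 4 * U * s * m0 + U * σ := by
    intro s
    by_contra hneg
    push Not at hneg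
    set X := s ^ 2 * m1 - 4 * U * s * m0 + U * σ with hX
    set Y := U * σ * (s ^ 2 * m0) with hY
    have hY0 : 0 ≤ Y := by positivity
    set T := -X / (2 * (Y + 1)) with hT
    have hT0 : 0 < T := div_pos (by linarith) (by linarith)
    have ht : Real.sqrt T ^ 2 = T := Real.sq_sqrt hT0.le
    have h2 := h (Real.sqrt T * s) (Real.sqrt T)
    have h3 : (Real.sqrt T * s) ^ 2 * m1 - 4 * U * Real.sqrt T * (Real.sqrt T * s) * m0 +
        U * Real.sqrt T ^ 2 * σ * (1 + (Real.sqrt T * s) ^ 2 * m0) =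
        Real.sqrt T ^ 2 * (X + Real.sqrt T ^ 2 * Y) := by
      rw [hX, hY]
      ring
    rw [h3, ht] at h2
    have h4 : 0 ≤ X + T * Y := nonneg_of_mul_nonneg_right h2 hT0
    have h5 : T * (2 * (Y + 1)) = -X := by
      rw [hT]
      field_simp
    nlinarith
  set r := Real.sqrt (c / (8 * U)) with hr
  have hr0 : 0 < r := Real.sqrt_pos.2 (by positivity)
  have hr2 : r ^ 2 = c / (8 * U) := Real.sq_sqrt (by positivity)
  have h2 := key (1 / (2 * r))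
  have h3 : (1 / (2 * r)) ^ 2 * m1 ≤ (1 / (2 * r)) ^ 2 * (c * σ / 2) :=
    mul_le_mul_of_nonneg_left h1 (sq_nonneg _)
  have h4 : (1 / (2 * r)) ^ 2 * (c * σ / 2) = U * σ := by
    have e1 : (1 / (2 * r)) ^ 2 = 1 / (4 * r ^ 2) := by
      rw [div_pow, one_pow, mul_pow]
      norm_num
    rw [e1, hr2]
    field_simp
    ring
  have h5 : 4 * U * (1 / (2 * r)) * m0 = 2 * U * (m0 / r) := by
    field_simp
    ring
  rw [h5] at h2
  have h6 : 2 * U * (m0 / r) ≤ 2 * U * σ := by linarith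
  have h7 : m0 / r ≤ σ := le_of_mul_le_mul_left h6 (by positivity)
  rwa [div_le_iff₀ hr0] at h7

section Torus

variable {d L : ℕ} [NeZero L]

omit [NeZero L] in
lemma nnw_nn (x y : Fin d → ZMod L) : 0 ≤ nnw 1 x y :=
  Finset.sum_nonneg fun i _ => by split_ifs <;> norm_num

lemma wg_nn {γ : ℝ} (hγ : 0 ≤ γ) (x y : Fin d → ZMod L) : 0 ≤ wg γ x y := by
  unfold wg
  have := nnw_nn x y
  positivity

lemma nnw_sum (x : Fin d → ZMod L) (h : (Fin d → ZMod L) → ℝ) :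
    ∑ y, nnw 1 x y * h y = ∑ i : Fin d, h (x + ee i) := by
  unfold nnw
  simp only [Finset.sum_mul]
  rw [Finset.sum_comm]
  refine Finset.sum_congr rfl fun i _ => ?_
  rw [Finset.sum_eq_single (x + ee i)]
  · rw [if_pos rfl, one_mul]
  · intro y _ hy
    rw [if_neg hy, zero_mul]
  · intro h
    exact absurd (Finset.mem_univ _) h

lemma grad (g : (Fin d → ZMod L) → ℝ) :
    ∑ x, ∑ i : Fin d, (g x - g (x + ee i)) ^ 2 = ∑ x, g x * lap g x := by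
  unfold lap
  simp only [Finset.mul_sum]
  rw [Finset.sum_comm, Finset.sum_comm (s := Finset.univ) (t := (Finset.univ : Finset (Fin d)))]
  refine Finset.sum_congr rfl fun i _ => ?_
  have h1 : ∑ x, g (x + ee i) ^ 2 = ∑ x, g x ^ 2 :=
    Equiv.sum_comp (Equiv.addRight (ee i : Fin d → ZMod L)) (fun x => g x ^ 2)
  have h2 : ∑ x, g x * g (x - ee i) = ∑ x, g (x + ee i) * g x := by
    rw [← Equiv.sum_comp (Equiv.addRight (ee i : Fin d → ZMod L)) (fun x => g x * g (x - ee i))]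
    refine Finset.sum_congr rfl fun x _ => ?_
    show g (x + ee i) * g (x + ee i - ee i) = _
    rw [add_sub_cancel_right]
  have h3 : ∀ x, (g x - g (x + ee i)) ^ 2 =
      g x ^ 2 - 2 * (g (x + ee i) * g x) + g (x + ee i) ^ 2 := fun x => by ring
  have h4 : ∀ x, g x * (2 * g x - g (x + ee i) - g (x - ee i)) =
      2 * g x ^ 2 - g (x + ee i) * g x - g x * g (x - ee i) := fun x => by ring
  simp only [h3, h4, Finset.sum_add_distrib, Finset.sum_sub_distrib, ← Finset.mul_sum]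
  rw [h1, h2]
  ring

lemma wg_sum (γ l : ℝ) (hγ : 0 ≤ γ) (g : (Fin d → ZMod L) → ℝ)
    (hl : ∀ x, lap g x = l * g x) :
    ∑ x, ∑ y, wg γ x y * (g x - g y) ^ 2 ≤ (l + 2 * γ) * ∑ x, g x ^ 2 := by
  have hV : (0 : ℝ) < (Fintype.card (Fin d → ZMod L) : ℝ) := by
    exact_mod_cast Fintype.card_pos
  have h1 : ∀ x, ∑ y, wg γ x y * (g x - g y) ^ 2 =
      ∑ i : Fin d, (g x - g (x + ee i)) ^ 2 +
        γ / (Fintype.card (Fin d → ZMod L) : ℝ) * ∑ y, (g x - g y) ^ 2 := by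
    intro x
    unfold wg
    simp only [add_mul, Finset.sum_add_distrib]
    rw [nnw_sum x (fun y => (g x - g y) ^ 2), Finset.mul_sum]
  have h2 : ∑ x, ∑ y, (g x - g y) ^ 2 =
      2 * (Fintype.card (Fin d → ZMod L) : ℝ) * ∑ x, g x ^ 2 - 2 * (∑ x, g x) ^ 2 := by
    have e1 : ∀ x y, (g x - g y) ^ 2 = g x ^ 2 - 2 * (g x * g y) + g y ^ 2 :=
      fun x y => by ring
    simp only [e1, Finset.sum_add_distrib, Finset.sum_sub_distrib, ← Finset.mul_sum,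
      Finset.sum_const, Finset.card_univ, nsmul_eq_mul, ← Finset.sum_mul]
    ring
  simp only [h1, Finset.sum_add_distrib, ← Finset.mul_sum]
  rw [grad, h2]
  have h3 : ∑ x, g x * lap g x = l * ∑ x, g x ^ 2 := by
    rw [Finset.mul_sum]
    refine Finset.sum_congr rfl fun x _ => ?_
    rw [hl]
    ring
  rw [h3]
  have h4 : γ / (Fintype.card (Fin d → ZMod L) : ℝ) *
      (2 * (Fintype.card (Fin d → ZMod L) : ℝ) * ∑ x, g x ^ 2 - 2 * (∑ x, g x) ^ 2) =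
      2 * γ * (∑ x, g x ^ 2) -
        2 * (γ / (Fintype.card (Fin d → ZMod L) : ℝ)) * (∑ x, g x) ^ 2 := by
    field_simp
  rw [h4]
  have h5 : 0 ≤ 2 * (γ / (Fintype.card (Fin d → ZMod L) : ℝ)) * (∑ x, g x) ^ 2 := by positivity
  linarith

end Torus

/-- QL/M0G -/
theorem main (hB : S_BAS) (hLB : Pool.Agent.N657.QR.S_LB) (hE : S_EIG) (hY : S_SYMG)
    (hM : S_MIN) : S_M0G := by
  intro d L _ U γ l Ψ g hU hγ hl hΨ hg
  have hw : ∀ x y : Fin d → ZMod L, 0 ≤ wg γ x y := wg_nn hγ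
  have hpd : (U • (1 : Matrix (Fin d → ZMod L) (Fin d → ZMod L) ℝ)).PosDef :=
    Matrix.PosDef.one.smul hU
  obtain ⟨heig, h4⟩ := hE _ (wg γ) 0 0 Ψ hpd hw hΨ
  have hG : Gs U (wg γ) (en (U • (1 : Matrix (Fin d → ZMod L) (Fin d → ZMod L) ℝ))
      (wg γ) 0 0) Ψ := ⟨hΨ.1.1, h4, heig⟩
  have hsym : ∀ n, Ψ (-n) ^ 2 = Ψ n ^ 2 := by
    intro n
    have := (hY d L U γ Ψ hU hγ hΨ).1 n n
    rw [pow_two, pow_two]
    exact this
  have hσ : 0 ≤ ∑ x, g x ^ 2 := Finset.sum_nonneg fun _ _ => sq_nonneg _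
  have hm0 : 0 ≤ ∑' n, G g n ^ 2 * Ψ n ^ 2 := tsum_nonneg fun n => by positivity
  have hm1 : (∑ x, ∑ y, wg γ x y * ((g x - g y) ^ 2 * cr x y Ψ)) / 2 ≤
      (l + 2 * γ) * (∑ x, g x ^ 2) / 2 := by
    have h1 : ∑ x, ∑ y, wg γ x y * ((g x - g y) ^ 2 * cr x y Ψ) ≤
        ∑ x, ∑ y, wg γ x y * (g x - g y) ^ 2 := by
      refine Finset.sum_le_sum fun x _ => Finset.sum_le_sum fun y _ => ?_
      have h2 := hB.crle x y Ψ hΨ.1.1
      rw [hΨ.2.2.1] at h2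
      have h3 := (le_abs_self _).trans h2
      refine mul_le_mul_of_nonneg_left ?_ (hw x y)
      exact mul_le_of_le_one_right (sq_nonneg _) h3
    have h5 := wg_sum γ l hγ g hg
    linarith
  exact fin _ _ (∑ x, g x ^ 2) U (l + 2 * γ) hU hm0 hm1 hσ (by linarith) fun κ t =>
    quad hLB hM hU hw hG hΨ.2.1 hΨ.2.2.1 hsym g κ t

end Pool.Agent.N690.QLM
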