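import Pool.Agent.N906.KG.Nt

/-! KG/SEQ0 (helper690 for helper906): counting coordinate by coordinate. -/

set_option autoImplicit false

namespace Pool.Agent.N690.KG

open NumberField IsDedekindDomain Finset Pool.Agent.H691R3 Pool.Agent.W223.AK
open Pool.Agent.N906.KG

variable {K : Type} [Field K] [NumberField K] {N : ℕ}

/-! ### Volumes -/

lemma bn_mono {f g : InfinitePlace K → ℝ} (h0 : ∀ w, 0 ≤ f w) (h : ∀ w, f w ≤ g w) :
    bn f ≤ bn g :=
  prod_le_prod (fun w _ => pow_nonneg (h0 w) _) fun w _ => pow_le_pow_left₀ (h0 w) (h w) _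

lemma bn_mul (f g : InfinitePlace K → ℝ) : bn (fun w => f w * g w) = bn f * bn g := by
  unfold bn
  rw [← prod_mul_distrib]
  exact prod_congr rfl fun w _ => mul_pow _ _ _

lemma bn_nonneg {f : InfinitePlace K → ℝ} (h0 : ∀ w, 0 ≤ f w) : 0 ≤ bn f :=
  prod_nonneg fun w _ => pow_nonneg (h0 w) _

lemma one_le_bn {f : InfinitePlace K → ℝ} (h0 : ∀ w, 1 ≤ f w) : 1 ≤ bn f := by
  unfold bn
  exact one_le_prod fun w _ => one_le_pow₀ (h0 w)

/-! ### The modulus -/

lemma fv_sub_le (v : HeightOneSpectrum (𝓞 K)) {a b : K} {r : ℝ} (ha : fv v a ≤ r)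
    (hb : fv v b ≤ r) : fv v (a - b) ≤ r := by
  rw [sub_eq_add_neg]
  refine (fv_na v a (-b)).trans (max_le ha ?_)
  rwa [(fv v).map_neg]

lemma fv_sum_le (v : HeightOneSpectrum (𝓞 K)) {ι : Type} (s : Finset ι) (f : ι → K) {r : ℝ}
    (hr : 0 ≤ r) (h : ∀ i ∈ s, fv v (f i) ≤ r) : fv v (∑ i ∈ s, f i) ≤ r := by
  classical
  induction s using Finset.induction_on with
  | empty => simpa using hr
  | insert a s ha ih =>
    rw [sum_insert ha]
    exact (fv_na v _ _).trans (max_le (h a (mem_insert_self a s))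
      (ih fun i hi => h i (mem_insert_of_mem hi)))

/-- the exponent of the modulus at the step `j` -/
noncomputable def mu (D : Fin (N + 1) → Idl K) (e : Fin (N + 1) ≃ Fin (N + 1)) (j : Fin N)
    (v : Pr K) : ℕ :=
  max (D (e j.castSucc) v) (⨅ i : {i : Fin (N + 1) // j.castSucc < i}, D (e i) v)

omit [NumberField K] in
lemma inf_le (D : Fin (N + 1) → Idl K) (e : Fin (N + 1) ≃ Fin (N + 1)) (j : Fin N)
    (v : Pr K) {i : Fin (N + 1)} (hi : j.castSucc < i) :
    (⨅ i : {i : Fin (N + 1) // j.castSucc < i}, D (e i) v) ≤ D (e i) v :=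
  ciInf_le (f := fun i : {i : Fin (N + 1) // j.castSucc < i} => D (e i) v)
    (OrderBot.bddBelow _) ⟨i, hi⟩

omit [NumberField K] in
lemma mu_zero (D : Fin (N + 1) → Idl K) (e : Fin (N + 1) ≃ Fin (N + 1)) (j : Fin N)
    (v : Pr K) (h : ∀ k, D k v = 0) : mu D e j v = 0 := by
  have h1 := inf_le D e j v (Fin.castSucc_lt_last j)
  rw [h] at h1
  unfold mu
  rw [h, Nat.le_zero.1 h1, max_self]

omit [NumberField K] in
lemma mem_sp {D : Fin (N + 1) → Idl K} {v : Pr K} {k : Fin (N + 1)} (h : D k v ≠ 0) :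
    v ∈ sp D := by
  classical
  unfold sp
  rw [mem_biUnion]
  exact ⟨k, mem_univ k, Finsupp.mem_support_iff.2 h⟩

open Classical in
/-- the modulus at the step `j` -/
noncomputable def Mm (D : Fin (N + 1) → Idl K) (e : Fin (N + 1) ≃ Fin (N + 1)) (j : Fin N)
    (m : Idl K) : Idl K :=
  Finsupp.onFinset (sp D ∪ m.support) (fun v => mu D e j v + m v) (by
    intro v hv
    rw [mem_union]
    by_contra hc
    push Not at hc
    obtain ⟨h1, h2⟩ := hc
    apply hv
    have h3 : ∀ k, D k v = 0 := by
      intro k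
      by_contra h
      exact h1 (mem_sp h)
    rw [mu_zero D e j v h3, Finsupp.notMem_support_iff.1 h2, Nat.add_zero])

lemma len_eq (a : Idl K) {s : Finset (Pr K)} (h : a.support ⊆ s) :
    len a = ∑ v ∈ s, (a v : ℝ) * Real.log (Nv v) := by
  unfold len
  refine sum_subset h fun v _ hv => ?_
  rw [Finsupp.notMem_support_iff.1 hv, Nat.cast_zero, zero_mul]

lemma len_Mm (D : Fin (N + 1) → Idl K) (e : Fin (N + 1) ≃ Fin (N + 1)) (j : Fin N)
    (m : Idl K) : len (Mm D e j m) = lj D e j + len m := by
  classical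
  have h1 : (Mm D e j m).support ⊆ sp D ∪ m.support := by
    unfold Mm
    refine Finset.Subset.trans Finsupp.support_onFinset_subset ?_
    exact Finset.Subset.refl _
  rw [len_eq _ h1, len_eq m (subset_union_right (s₁ := sp D))]
  have h2 : lj D e j = ∑ v ∈ sp D ∪ m.support, (mu D e j v : ℝ) * Real.log (Nv v) := by
    unfold lj
    refine sum_subset subset_union_left fun v _ hv => ?_
    have h3 : ∀ k, D k v = 0 := by
      intro k
      by_contra h
      exact hv (mem_sp h)
    have h4 := mu_zero D e j v h3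
    unfold mu at h4
    rw [h4, Nat.cast_zero, zero_mul]
  rw [h2, ← sum_add_distrib]
  refine sum_congr rfl fun v _ => ?_
  have h5 : (Mm D e j m) v = mu D e j v + m v := rfl
  rw [h5]
  push_cast
  ring

/-! ### The step -/

lemma split_sum {M : Type} [AddCommMonoid M] (f : Fin (N + 1) → M) (j : Fin (N + 1)) :
    ∑ i, f i = ∑ i with i < j, f i + (f j + ∑ i with j < i, f i) := by
  rw [← sum_filter_add_sum_filter_not univ (fun i => i < j) f]
  congr 1
  have h : univ.filter (fun i => ¬ i < j) = insert j (univ.filter fun i => j < i) := by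
    ext i
    simp only [mem_filter, mem_univ, true_and, mem_insert, not_lt]
    constructor
    · intro h
      rcases h.eq_or_lt with h | h
      · exact Or.inl h.symm
      · exact Or.inr h
    · rintro (h | h)
      · exact h.symm.le
      · exact h.le
  rw [h, sum_insert]
  simp

/-- the radius at the step `j` -/
noncomputable def rad (B : Fin (N + 1) → InfinitePlace K → ℝ) (e : Fin (N + 1) ≃ Fin (N + 1))
    (j : Fin N) (w : InfinitePlace K) : ℝ :=
  min (B (e j.castSucc) w) (∑ i with j.castSucc < i, B (e i) w)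

omit [NumberField K] in
lemma rad_pos {B : Fin (N + 1) → InfinitePlace K → ℝ} (e : Fin (N + 1) ≃ Fin (N + 1))
    (j : Fin N) (hB : ∀ k w, 0 < B k w) (w : InfinitePlace K) : 0 < rad B e j w := by
  refine lt_min (hB _ _) (sum_pos (fun i _ => hB _ _) ⟨Fin.last N, ?_⟩)
  rw [mem_filter]
  exact ⟨mem_univ _, Fin.castSucc_lt_last j⟩

omit [NumberField K] in
lemma rad_le {B : Fin (N + 1) → InfinitePlace K → ℝ} (e : Fin (N + 1) ≃ Fin (N + 1))
    (j : Fin N) (hN : 1 ≤ N) (hB : ∀ k w, 0 < B k w) (w : InfinitePlace K) :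
    rad B e j w ≤ (N : ℝ) * min (B (e j.castSucc) w)
      (⨆ i : {i : Fin (N + 1) // j.castSucc < i}, B (e i) w) := by
  have hN1 : (1 : ℝ) ≤ N := by exact_mod_cast hN
  have hsup : ∀ i : Fin (N + 1), j.castSucc < i → B (e i) w ≤
      ⨆ i : {i : Fin (N + 1) // j.castSucc < i}, B (e i) w := fun i hi =>
    le_ciSup (f := fun i : {i : Fin (N + 1) // j.castSucc < i} => B (e i) w)
      (Set.finite_range _).bddAbove ⟨i, hi⟩
  set S : ℝ := ⨆ i : {i : Fin (N + 1) // j.castSucc < i}, B (e i) w with hS
  have hS0 : 0 ≤ S := (hB _ _).le.trans (hsup _ (Fin.castSucc_lt_last j))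
  have hsum : ∑ i with j.castSucc < i, B (e i) w ≤ N * S := by
    refine (sum_le_sum fun i hi => hsup i (mem_filter.1 hi).2).trans ?_
    rw [sum_const, nsmul_eq_mul]
    refine mul_le_mul_of_nonneg_right ?_ hS0
    have h1 : (univ.filter fun i : Fin (N + 1) => j.castSucc < i).card ≤
        (univ.erase (j.castSucc)).card := by
      refine card_le_card fun i hi => ?_
      rw [mem_erase]
      exact ⟨(mem_filter.1 hi).2.ne', mem_univ _⟩
    rw [card_erase_of_mem (mem_univ _), card_univ, Fintype.card_fin, Nat.add_sub_cancel] at h1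
    exact_mod_cast h1
  unfold rad
  rw [mul_min_of_nonneg _ _ (by linarith)]
  refine min_le_min ?_ hsum
  nlinarith [hB (e j.castSucc) w]

lemma step {C : ℝ} (hC : ∀ (a : InfinitePlace K → ℂ) (ρ : InfinitePlace K → ℝ) (m : Idl K)
      (F : Finset (𝓞 K)), (∀ w, 0 < ρ w) →
      (∀ x ∈ F, ∀ w, ‖w.embedding (x : K) - a w‖ ≤ ρ w) →
      (∀ x ∈ F, ∀ y ∈ F, ∀ v, fv v ((x : K) - (y : K)) ≤ (Nv v) ^ (-(m v : ℤ))) →
      (F.card : ℝ) ≤ C * (bn ρ * Real.exp (-len m) + 1)) (hC0 : 0 < C)
    [DecidableEq (𝓞 K)] (e : Fin (N + 1) ≃ Fin (N + 1)) (D : Fin (N + 1) → Idl K) (m : Idl K)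
    (c : Fin (N + 1) → 𝓞 K) (B : Fin (N + 1) → InfinitePlace K → ℝ) (hN : 1 ≤ N)
    (hB : ∀ k w, 0 < B k w) (hm : ∀ v, m v = 0 ∨ ∀ k, D k v = 0) (j : Fin N)
    (F : Finset (Fin (N + 1) → 𝓞 K))
    (hF : ∀ x ∈ F, ∑ k, x k = 0 ∧ Dv D x ∧ Cg m c x ∧
      ∀ k (w : InfinitePlace K), w (x k : K) ≤ B k w)
    (hag : ∀ x ∈ F, ∀ y ∈ F, ∀ i : Fin (N + 1), i < j.castSucc → x (e i) = y (e i)) :
    ((F.image fun x => x (e j.castSucc)).card : ℝ) ≤
      C * bn (fun _ : InfinitePlace K => (N : ℝ)) *
        (Rj B e j * Real.exp (-lj D e j - len m) + 1) := by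
  have hN1 : (1 : ℝ) ≤ N := by exact_mod_cast hN
  have hA : 1 ≤ bn (fun _ : InfinitePlace K => (N : ℝ)) := one_le_bn fun _ => hN1
  have hRj0 : 0 ≤ Rj B e j := by
    refine bn_nonneg fun w => le_min (hB _ _).le ?_
    exact (hB _ _).le.trans (le_ciSup
      (f := fun i : {i : Fin (N + 1) // j.castSucc < i} => B (e i) w)
      (Set.finite_range _).bddAbove ⟨Fin.last N, Fin.castSucc_lt_last j⟩)
  -- the sum
  have hsum : ∀ x ∈ F, ∑ i with i < j.castSucc, ((x (e i) : 𝓞 K) : K) +
      (((x (e j.castSucc) : 𝓞 K) : K) + ∑ i with j.castSucc < i, ((x (e i) : 𝓞 K) : K)) = 0 := by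
    intro x hx
    have h1 := congrArg (algebraMap (𝓞 K) K) (hF x hx).1
    rw [map_sum, map_zero, ← Equiv.sum_comp e] at h1
    rw [← split_sum (fun i => ((x (e i) : 𝓞 K) : K)) j.castSucc]
    exact h1
  rcases F.eq_empty_or_nonempty with h0 | ⟨x0, hx0⟩
  · subst h0
    rw [image_empty, card_empty, Nat.cast_zero]
    positivity
  set s : K := ∑ i with i < j.castSucc, ((x0 (e i) : 𝓞 K) : K) with hs
  have hs' : ∀ x ∈ F, ∑ i with i < j.castSucc, ((x (e i) : 𝓞 K) : K) = s := by
    intro x hx
    rw [hs]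
    refine sum_congr rfl fun i hi => ?_
    rw [hag x hx x0 hx0 i (mem_filter.1 hi).2]
  have hcard := hC (fun w => if B (e j.castSucc) w ≤ ∑ i with j.castSucc < i, B (e i) w then 0
      else -w.embedding s) (rad B e j) (Mm D e j m) (F.image fun x => x (e j.castSucc))
    (rad_pos e j hB) (by
      intro t ht w
      rw [mem_image] at ht
      obtain ⟨x, hx, rfl⟩ := ht
      unfold rad
      split_ifs with h
      · rw [sub_zero, min_eq_left h, InfinitePlace.norm_embedding_eq]
        exact (hF x hx).2.2.2 _ _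
      · rw [min_eq_right (not_le.1 h).le, sub_neg_eq_add]
        have h1 := hsum x hx
        rw [hs' x hx] at h1
        have h2 : w.embedding ((x (e j.castSucc) : 𝓞 K) : K) + w.embedding s =
            -∑ i with j.castSucc < i, w.embedding ((x (e i) : 𝓞 K) : K) := by
          rw [← map_sum, ← map_add, ← map_neg]
          congr 1
          linear_combination h1
        rw [h2, norm_neg]
        refine (norm_sum_le _ _).trans (sum_le_sum fun i _ => ?_)
        rw [InfinitePlace.norm_embedding_eq]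
        exact (hF x hx).2.2.2 _ _) (by
      intro t ht t' ht' v
      rw [mem_image] at ht ht'
      obtain ⟨x, hx, rfl⟩ := ht
      obtain ⟨y, hy, rfl⟩ := ht'
      have hNv : 1 ≤ Nv v := by linarith [two_le_Nv v]
      have hNv0 : 0 < Nv v := by linarith
      have e1 : (Mm D e j m) v = mu D e j v + m v := rfl
      rw [e1]
      rcases hm v with h | h
      · rw [h, add_zero]
        unfold mu
        rcases max_choice (D (e j.castSucc) v)
          (⨅ i : {i : Fin (N + 1) // j.castSucc < i}, D (e i) v) with h3 | h3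
        · rw [h3]
          exact fv_sub_le v ((hF x hx).2.1 _ v) ((hF y hy).2.1 _ v)
        · rw [h3]
          have h1 := hsum x hx
          have h2 := hsum y hy
          rw [hs' x hx] at h1
          rw [hs' y hy] at h2
          have h4 : ((x (e j.castSucc) : 𝓞 K) : K) - ((y (e j.castSucc) : 𝓞 K) : K) =
              ∑ i with j.castSucc < i, ((y (e i) : 𝓞 K) : K) -
                ∑ i with j.castSucc < i, ((x (e i) : 𝓞 K) : K) := by
            linear_combination h1 - h2
          rw [h4]
          have h5 : ∀ z ∈ F, fv v (∑ i with j.castSucc < i, ((z (e i) : 𝓞 K) : K)) ≤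
              Nv v ^ (-((⨅ i : {i : Fin (N + 1) // j.castSucc < i}, D (e i) v : ℕ) : ℤ)) := by
            intro z hz
            refine fv_sum_le v _ _ (zpow_nonneg hNv0.le _) fun i hi => ?_
            refine ((hF z hz).2.1 _ v).trans (zpow_le_zpow_right₀ hNv ?_)
            have h6 := inf_le D e j v (mem_filter.1 hi).2
            omega
          exact fv_sub_le v (h5 y hy) (h5 x hx)
      · rw [mu_zero D e j v h, zero_add]
        have h4 : ((x (e j.castSucc) : 𝓞 K) : K) - ((y (e j.castSucc) : 𝓞 K) : K) =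
            (((x (e j.castSucc) : 𝓞 K) : K) - ((c (e j.castSucc) : 𝓞 K) : K)) -
            (((y (e j.castSucc) : 𝓞 K) : K) - ((c (e j.castSucc) : 𝓞 K) : K)) := by ring
        rw [h4]
        exact fv_sub_le v ((hF x hx).2.2.1 _ v) ((hF y hy).2.2.1 _ v))
  rw [len_Mm] at hcard
  have e2 : -(lj D e j + len m) = -lj D e j - len m := by ring
  rw [e2] at hcard
  refine hcard.trans ?_
  have h7 : bn (rad B e j) ≤ bn (fun _ : InfinitePlace K => (N : ℝ)) * Rj B e j := by
    unfold Rj
    rw [← bn_mul]
    exact bn_mono (fun w => (rad_pos e j hB w).le) fun w => rad_le e j hN hB w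
  have hE := Real.exp_pos (-lj D e j - len m)
  set E := Real.exp (-lj D e j - len m)
  set A := bn (fun _ : InfinitePlace K => (N : ℝ))
  have h8 : bn (rad B e j) * E ≤ A * Rj B e j * E := mul_le_mul_of_nonneg_right h7 hE.le
  have h9 : C * (bn (rad B e j) * E + 1) ≤ C * (A * Rj B e j * E + A) :=
    mul_le_mul_of_nonneg_left (by linarith) hC0.le
  refine h9.trans (le_of_eq ?_)
  ring

variable (K) in
theorem seq0 (h : S_DISC K) : S_SEQ0 K := by
  classical
  obtain ⟨C, hC0, hC⟩ := h
  intro N hN
  have hN1 : (1 : ℝ) ≤ N := by exact_mod_cast hN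
  set A := bn (fun _ : InfinitePlace K => (N : ℝ)) with hAd
  have hA : 1 ≤ A := one_le_bn fun _ => hN1
  have hA0 : 0 < A := by linarith
  refine ⟨(C * A) ^ N, by positivity, ?_⟩
  intro e D m c B F hB hm hF
  set t : Fin N → ℝ := fun j => C * A * (Rj B e j * Real.exp (-lj D e j - len m) + 1) with ht
  have hRj0 : ∀ j, 0 ≤ Rj B e j := by
    intro j
    refine bn_nonneg fun w => le_min (hB _ _).le ?_
    exact (hB _ _).le.trans (le_ciSup
      (f := fun i : {i : Fin (N + 1) // j.castSucc < i} => B (e i) w)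
      (Set.finite_range _).bddAbove ⟨Fin.last N, Fin.castSucc_lt_last j⟩)
  have ht0 : ∀ j, 0 ≤ t j := by
    intro j
    have := hRj0 j
    rw [ht]
    positivity
  have key : ∀ k j : ℕ, j + k = N → ∀ F' : Finset (Fin (N + 1) → 𝓞 K), F' ⊆ F →
      (∀ x ∈ F', ∀ y ∈ F', ∀ i : Fin (N + 1), (i : ℕ) < j → x (e i) = y (e i)) →
      (F'.card : ℝ) ≤ ∏ i ∈ univ.filter (fun i : Fin N => j ≤ (i : ℕ)), t i := by
    intro k
    induction k with
    | zero =>
      intro j hj F' hF' hag
      have h1 : (univ.filter fun i : Fin N => j ≤ (i : ℕ)) = ∅ := by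
        rw [filter_eq_empty_iff]
        intro i _
        have := i.isLt
        omega
      rw [h1, prod_empty]
      have h2 : F'.card ≤ 1 := by
        rw [card_le_one]
        intro x hx y hy
        have h3 : ∀ i : Fin (N + 1), i ≠ Fin.last N → x (e i) = y (e i) := by
          intro i hi
          apply hag x hx y hy
          have := Fin.val_lt_last hi
          omega
        have h4 : x (e (Fin.last N)) = y (e (Fin.last N)) := by
          have sx := (hF x (hF' hx)).1
          have sy := (hF y (hF' hy)).1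
          rw [← Equiv.sum_comp e, ← add_sum_erase univ _ (mem_univ (Fin.last N))] at sx sy
          have h5 : ∑ i ∈ univ.erase (Fin.last N), x (e i) =
              ∑ i ∈ univ.erase (Fin.last N), y (e i) :=
            sum_congr rfl fun i hi => h3 i (ne_of_mem_erase hi)
          rw [h5] at sx
          linear_combination sx - sy
        funext q
        rw [← e.apply_symm_apply q]
        by_cases hq : e.symm q = Fin.last N
        · rw [hq]; exact h4
        · exact h3 _ hq
      exact_mod_cast h2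
    | succ k ih =>
      intro j hj F' hF' hag
      have hjN : j < N := by omega
      set j' : Fin N := ⟨j, hjN⟩ with hj'
      have hcs : ∀ i : Fin (N + 1), i < j'.castSucc ↔ (i : ℕ) < j := by
        intro i
        rw [Fin.lt_def]
        rfl
      have h1 : (univ.filter fun i : Fin N => j ≤ (i : ℕ)) =
          insert j' (univ.filter fun i : Fin N => j + 1 ≤ (i : ℕ)) := by
        ext i
        simp only [mem_filter, mem_univ, true_and, mem_insert]
        constructor
        · intro h
          rcases h.eq_or_lt with h | h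
          · exact Or.inl (Fin.ext h.symm)
          · exact Or.inr h
        · rintro (h | h)
          · rw [h]
          · omega
      have h2 : j' ∉ (univ.filter fun i : Fin N => j + 1 ≤ (i : ℕ)) := by
        rw [mem_filter]
        rintro ⟨-, h⟩
        have : ((⟨j, hjN⟩ : Fin N) : ℕ) = j := rfl
        omega
      rw [h1, prod_insert h2]
      set Q := ∏ i ∈ univ.filter (fun i : Fin N => j + 1 ≤ (i : ℕ)), t i with hQ
      have hQ0 : 0 ≤ Q := prod_nonneg fun i _ => ht0 i
      have h3 := step hC hC0 e D m c B hN hB hm j' F' (fun x hx => hF x (hF' hx))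
        (fun x hx y hy i hi => hag x hx y hy i ((hcs i).1 hi))
      rw [card_eq_sum_card_image (fun x : Fin (N + 1) → 𝓞 K => x (e j'.castSucc)) F']
      push_cast
      have h4 : ∀ b ∈ F'.image (fun x : Fin (N + 1) → 𝓞 K => x (e j'.castSucc)),
          ((F'.filter fun x => x (e j'.castSucc) = b).card : ℝ) ≤ Q := by
        intro b _
        refine ih (j + 1) (by omega) _ ((filter_subset _ _).trans hF') ?_
        intro x hx y hy i hi
        rw [mem_filter] at hx hy
        rcases Nat.lt_succ_iff_lt_or_eq.1 hi with h | h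
        · exact hag x hx.1 y hy.1 i h
        · have h5 : i = j'.castSucc := Fin.ext h
          rw [h5, hx.2, hy.2]
      refine (sum_le_sum h4).trans ?_
      rw [sum_const, nsmul_eq_mul]
      exact mul_le_mul_of_nonneg_right h3 hQ0
  have h1 := key N 0 (by omega) F (Finset.Subset.refl _) (fun x _ y _ i hi => absurd hi (Nat.not_lt_zero _))
  have h2 : (univ.filter fun i : Fin N => 0 ≤ (i : ℕ)) = univ := by
    rw [filter_true_of_mem]
    intro i _
    exact Nat.zero_le _
  rw [h2, ht, prod_mul_distrib, prod_const, card_univ, Fintype.card_fin] at h1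
  exact h1

end Pool.Agent.N690.KG
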